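import Pool.Agent.K9h56.CR.CltUnif

/-!
# The time of descent of the real orbits of Chamberland's map is asymptotically normal

`f` is Chamberland's real extension of the `3x+1` map, `lam = log (4 / (2 + √3)) = 0.0693...` and `var` the
variance of `log (1 - cos (π u) / 2)`, `u` uniform in `[0, 1]`. For `x` in `[m, m+1)` let `τ` be the time of
the first term of the orbit of `x` which is smaller than `L m`. If `log (L m) = o (√(log m))`, then the
proportion of the `x` with

`τ ≤ log m / lam + t √(log m) / lam ^ (3/2)`

differs from the normal distribution function with variance `var` at `t` by at most `C (L m) ^ (-1/4) + o(1)`,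
uniformly in `t`. In particular `τ` is asymptotically normal with mean `log m / lam` and variance
`var log m / lam ^ 3` if `L m` tends to infinity.

Proof. The orbit is compared with the random walk with steps `log (1 - cos (π u) / 2)` (the method of
`OrbitsFollowRandomWalk`); the walk has mean `- lam`, which is computed by the mean value of
`log |z - (2 - √3)|` over the unit circle; the minimum and the last value of the walk are compared by the
martingale `exp (S n)` (the mean of `1 - cos (π u) / 2` is `1`); and Mathlib's central limit theorem is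
applied to the walk.
-/

set_option autoImplicit false

namespace Pool.Agent.Results.MP_a247fa_nt.DescentCLT

open MeasureTheory Filter Topology

/-- Chamberland's map. -/
noncomputable def f (x : ℝ) : ℝ := x + 1 / 4 - (2 * x + 1) / 4 * Real.cos (Real.pi * x)

/-- The rate of descent, `0.0693...`. -/
noncomputable def lam : ℝ := Real.log (4 / (2 + Real.sqrt 3))

/-- The variance of `log (1 - cos (π u) / 2)`, `u` uniform in `[0, 1]` (its mean is `- lam`). -/
noncomputable def var : ℝ := ∫ u in (0 : ℝ)..1, (Real.log (1 - Real.cos (Real.pi * u) / 2) + lam) ^ 2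

/-- The points of `[m, m+1)` whose orbit has a term smaller than `L` at a time `k ≤ s`. -/
def Descent (L m : ℕ) (s : ℝ) : Set ℝ :=
  {x : ℝ | (m : ℝ) ≤ x ∧ x < m + 1 ∧ ∃ k : ℕ, (k : ℝ) ≤ s ∧ f^[k] x < L}

/-- **Theorem.** There is `C` such that for all `L m ≥ 1` with `log (L m) / √(log m) → 0` and every `ε > 0`,
for all large `m` and all real `t`, the measure of the set of the points of `[m, m+1)` whose orbit has a term
smaller than `L m` at a time `k ≤ log m / lam + t √(log m) / lam ^ (3/2)` differs from the normal distribution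
function with mean `0` and variance `var` at `t` by at most `C (L m) ^ (-1/4) + ε`. -/
theorem result : ∃ C : ℝ, ∀ L : ℕ → ℕ, (∀ m, 1 ≤ L m) →
    Tendsto (fun m : ℕ => Real.log (L m) / Real.sqrt (Real.log m)) atTop (𝓝 0) →
    ∀ ε : ℝ, 0 < ε → ∀ᶠ m : ℕ in atTop, ∀ t : ℝ,
      |(volume (Descent (L m) m
          (Real.log m / lam + t * Real.sqrt (Real.log m) / (lam * Real.sqrt lam)))).toReal -
        (ProbabilityTheory.gaussianReal 0 var.toNNReal (Set.Iic t)).toReal| ≤
        C * (L m : ℝ) ^ (-(1 / 4) : ℝ) + ε := by
  refine ⟨10000, fun L hL1 hL2 ε hε => ?_⟩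
  filter_upwards [Pool.Agent.K9h56.CR.clt_unif L hL1 hL2 hε,
    Pool.Agent.K9h56.CR.ev_le hL1 hL2] with m hm hmL t
  have h1 := hm t
  have hLp : 0 ≤ (L m : ℝ) ^ (-(1 / 4) : ℝ) := by positivity
  rcases lt_or_ge (Real.log m / lam + t * Real.sqrt (Real.log m) / (lam * Real.sqrt lam)) 0 with hneg | hpos
  · -- the threshold is negative
    have e1 : Descent (L m) m (Real.log m / lam + t * Real.sqrt (Real.log m) / (lam * Real.sqrt lam)) = ∅ := by
      ext x
      simp only [Set.mem_empty_iff_false, iff_false]
      rintro ⟨-, -, k, hk, -⟩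
      have h2 : (0 : ℝ) ≤ k := by positivity
      linarith
    have e2 : ⌊Pool.Agent.K9h56.CR.thr t m⌋₊ = 0 := Nat.floor_of_nonpos hneg.le
    rw [e2, Pool.Agent.K9h56.CR.dn_zero hmL] at h1
    rw [e1, measure_empty]
    exact h1
  · have e1 : Descent (L m) m (Real.log m / lam + t * Real.sqrt (Real.log m) / (lam * Real.sqrt lam)) =
        Pool.Agent.K9h56.CR.Dn (L m) ⌊Pool.Agent.K9h56.CR.thr t m⌋₊ ∩ Pool.Agent.W40.Ch.cell m := by
      ext x
      constructor
      · rintro ⟨a, b, k, hk, h⟩
        exact ⟨⟨k, Nat.le_floor hk, h⟩, a, b⟩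
      · rintro ⟨⟨k, hk, h⟩, a, b⟩
        exact ⟨a, b, k, (Nat.le_floor_iff hpos).1 hk, h⟩
    rw [e1]
    exact h1

end Pool.Agent.Results.MP_a247fa_nt.DescentCLT
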