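import Pool.Agent.K9h56.CR.Lln

/-!
# The exact speed of descent of the typical orbits of Chamberland's map

`f` is Chamberland's real extension of the `3x+1` map and `lam = log (4 / (2 + √3)) = 0.0693...`, the
negative of the mean of `log (1 - cos (π t) / 2)` over a unit interval. For most of the points
`x` of `[m, m+1)`, the whole orbit, from `m` down to its first term below `L`, follows the geometric
progression `m exp (-lam k)` on the logarithmic scale; in particular the number of steps which it needs is
`(1 / lam) log (m / L) + o(log m)` with `1 / lam = 14.42...`. (The orbits of the positive integers, and those of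
the critical points just above the odd integers, are faster: for most of them the rate is
`log (4 / 3) / 2 = 0.1438...`.) The exceptional set has measure at most `C (m ^ (-c) + L ^ (-1/4))`, for all
`m ≥ L ≥ 1`.

The starting theorem `LogTimeDescent` gives the upper bound `75 log m + 1` for the number of steps.

Proof. By the one-step estimates of the starting files (`Pool/Agent/W40/Ch`) the proportions of the cells
`[k, k+1)` occupied by a set are transported by a Markov operator `P` on functions of the integers, up to
the error `22 m ^ (-1/4)`. The powers `(m + 1) ^ s` and `m ^ (-s)` are multiplied by at most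
`exp (∓ lam s + 3 s ^ 2)`, where `lam` is computed by the mean value of `log |z - (2 - √3)|` over the
unit circle. An induction over the time with the moving barriers `B exp (- lam k)` gives large deviation
bounds on both sides for all times at once; the errors are absorbed by the Lyapunov function `m ^ (-1/4)`.
-/

set_option autoImplicit false

namespace Pool.Agent.Results.MP_a247fa_nt.ExactDescentSpeed

open MeasureTheory

/-- Chamberland's map. -/
noncomputable def f (x : ℝ) : ℝ := x + 1 / 4 - (2 * x + 1) / 4 * Real.cos (Real.pi * x)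

/-- The rate of descent, `0.0693...`. -/
noncomputable def lam : ℝ := Real.log (4 / (2 + Real.sqrt 3))

/-- The orbit of `x` falls below `L` for the first time at a time `τ` which differs from
`log (m / L) / lam` by at most `ε log m / lam`, and for all `k ≤ τ` the logarithm of `f^k(x)` differs from
`log m - lam k` by at most `ε log m`. -/
def Typical (ε : ℝ) (L m : ℕ) (x : ℝ) : Prop :=
  ∃ τ : ℕ, f^[τ] x < L ∧ (∀ k : ℕ, k < τ → (L : ℝ) ≤ f^[k] x) ∧
    |lam * τ - Real.log (m / L)| ≤ ε * Real.log m ∧
    ∀ k : ℕ, k ≤ τ → |Real.log (f^[k] x) - (Real.log m - lam * k)| ≤ ε * Real.log m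

/-- **Theorem.** For every `ε > 0` there are `C` and `c > 0` such that for all integers `m ≥ L ≥ 1` all
points of `[m, m+1)` outside a set of measure at most `C (m ^ (-c) + L ^ (-1/4))` are typical. -/
theorem result : ∀ ε : ℝ, 0 < ε → ∃ C c : ℝ, 0 < c ∧ ∀ m L : ℕ, 1 ≤ L → L ≤ m →
    volume {x : ℝ | (m : ℝ) ≤ x ∧ x < m + 1 ∧ ¬ Typical ε L m x} ≤
      ENNReal.ofReal (C * ((m : ℝ) ^ (-c) + (L : ℝ) ^ (-(1 / 4) : ℝ))) := by
  intro ε hε
  obtain ⟨C, c, hc, h⟩ := Pool.Agent.K9h56.CR.lln hε
  refine ⟨C, c, hc, fun m L hL hLm => ?_⟩
  have h1 := h m L hL hLm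
  have hsub : {x : ℝ | (m : ℝ) ≤ x ∧ x < m + 1 ∧ ¬ Typical ε L m x} ⊆
      {x | ¬ Pool.Agent.K9h56.CR.Typ ε L m x} ∩ Pool.Agent.W40.Ch.cell m :=
    fun x hx => ⟨hx.2.2, hx.1, hx.2.1⟩
  refine (measure_mono hsub).trans ?_
  rw [← ENNReal.ofReal_toReal (Pool.Agent.W40.Ch.inter_fin' _ _)]
  exact ENNReal.ofReal_le_ofReal h1

end Pool.Agent.Results.MP_a247fa_nt.ExactDescentSpeed
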