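import Pool.Agent.K9h56.CR.ExcFin

/-!
# How high do the typical orbits of Chamberland's map climb before they descend?

`f` is Chamberland's real extension of the `3x+1` map. For the points `x` of `[m, m+1)`, the proportion of
those whose orbit exceeds `t m` before it falls below `L` lies between `2 / (3 t)` and `1 / t`, up to
errors `O(L ^ (-1/4) + L / m)` which are uniform in `t ≥ 1`: the height of the excursion has a Pareto
tail of exponent exactly `1`. (For the positive integers the exponent is also `1`, by the starting theorems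
`LargeExcursions` and `SharpLaw` of `MP_0a5adf_nt`, with other multipliers and by parity vectors, which do
not exist for real points.)

Proof. By the one-step estimates of the starting files (`Pool/Agent/W40/Ch`) the proportions of the cells
`[k, k+1)` occupied by a set are transported by a Markov operator `P` on functions of the integers, up to
the error `22 m ^ (-1/4)`. The height itself is almost harmonic, `m - 2 ≤ P (k) m` and
`P (k + 1) m ≤ m + 4`, since the mean of `1 - cos (π t) / 2` is `1`, and one step multiplies by at most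
`3/2`; the bounded errors are absorbed by `20 √k` and those of the transport by `k ^ (-1/4)`. The bounds are
those of optional stopping.
-/

set_option autoImplicit false

namespace Pool.Agent.Results.MP_a247fa_nt.ExcursionLaw

open MeasureTheory

/-- Chamberland's map. -/
noncomputable def f (x : ℝ) : ℝ := x + 1 / 4 - (2 * x + 1) / 4 * Real.cos (Real.pi * x)

/-- The points of `[m, m+1)` whose orbit reaches the level `B` before it falls below `L`. -/
def Climb (L m : ℕ) (B : ℝ) : Set ℝ :=
  {x : ℝ | (m : ℝ) ≤ x ∧ x < m + 1 ∧ ∃ k : ℕ, B ≤ f^[k] x ∧ ∀ i : ℕ, i < k → (L : ℝ) ≤ f^[i] x}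

/-- **Theorem.** There is `C` such that for all integers `m ≥ L ≥ 1` and all real `t ≥ 1` the measure of the
set of the points of `[m, m+1)` whose orbit reaches `t m` before it falls below `L` is at most
`1 / t + C L ^ (-1/4)` and at least `2 / (3 t) - C (L ^ (-1/4) + L / m)`. -/
theorem result : ∃ C : ℝ, ∀ m L : ℕ, 1 ≤ L → L ≤ m → ∀ t : ℝ, 1 ≤ t →
    volume (Climb L m (t * m)) ≤ ENNReal.ofReal (1 / t + C * (L : ℝ) ^ (-(1 / 4) : ℝ)) ∧
    ENNReal.ofReal (2 / (3 * t) - C * ((L : ℝ) ^ (-(1 / 4) : ℝ) + L / m)) ≤ volume (Climb L m (t * m)) := by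
  obtain ⟨C, h⟩ := Pool.Agent.K9h56.CR.exc_final
  refine ⟨C, fun m L hL hLm t ht => ?_⟩
  obtain ⟨h1, h2⟩ := h m L hL hLm t ht
  have e : Climb L m (t * m) = Pool.Agent.K9h56.CR.ExU L (t * m) ∩ Pool.Agent.W40.Ch.cell m := by
    ext x
    constructor
    · rintro ⟨a, b, k, c, d⟩
      exact ⟨⟨k, d, c⟩, a, b⟩
    · rintro ⟨⟨k, d, c⟩, a, b⟩
      exact ⟨a, b, k, c, d⟩
  rw [e, ← ENNReal.ofReal_toReal (Pool.Agent.W40.Ch.inter_fin' _ _)]
  exact ⟨ENNReal.ofReal_le_ofReal h1, ENNReal.ofReal_le_ofReal h2⟩

end Pool.Agent.Results.MP_a247fa_nt.ExcursionLaw
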