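import Pool.Agent.K9h56.CR.InvFin

/-!
# The real orbits of Chamberland's map follow a random walk

`f` is Chamberland's real extension of the `3x+1` map. Let `x` be a random point of `[m, m+1)` (Lebesgue
measure) and let `u 0, u 1, ...` be independent and uniform in `[0, 1]`. Up to the time when it falls below
`L`, the orbit of `x` behaves as the multiplicative random walk `m Y 0 Y 1 ... Y (i-1)`,
`Y j = 1 - cos (π u j) / 2`, up to a factor `exp (± L ^ (-1/2))` at all times `i`, and up to an event of
probability `C L ^ (-1/4)`. The bound does not depend on the starting height `m` or on the number `N` of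
steps considered.

More precisely, for EVERY set `A` of finite sequences of natural numbers, the probability that the sequence
of the heights of the orbit is in `A` is at most the probability that the walk stays near some sequence of
`A`, plus `C L ^ (-1/4)`. (This is the condition in Strassen's theorem for the existence of a common
realisation of the orbit and of the walk; the complement of `A` gives lower bounds.)

Proof. By the one-step estimates of the starting files (`Pool/Agent/W40/Ch`) the proportions of the cells
`[k, k+1)` occupied by a set are transported by a Markov operator `P` on functions of the integers, up to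
the error `22 m ^ (-1/4)`, and `P u m` is the mean of `u` at the integer part of `f`, which differs from
`m (1 - cos (π x) / 2)` by a factor `exp (± 4 / m)`. Induction over the number of steps, for all `A` at
once: each step uses up `4 / m` of the allowance `L ^ (-1/2)`, and the errors are absorbed by the Lyapunov
function `2 exp (-κ η) (1 + g (L/2) - g m) + 2200 (g (L/2) - g m)`, `g m = m ^ (-1/4)`, `κ = L ^ (3/4) / 1600`,
where `η` is the allowance which remains.
-/

set_option autoImplicit false

namespace Pool.Agent.Results.MP_a247fa_nt.OrbitsFollowRandomWalk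

open MeasureTheory

/-- Chamberland's map. -/
noncomputable def f (x : ℝ) : ℝ := x + 1 / 4 - (2 * x + 1) / 4 * Real.cos (Real.pi * x)

/-- The heights of the orbit of `x`: the integer parts of `x, f x, f (f x), ...`, up to the time `N` or up
to the first term which is smaller than `L`, whichever is earlier. -/
noncomputable def heights (L : ℕ) : ℕ → ℝ → List ℕ
  | 0, x => [⌊x⌋₊]
  | N + 1, x => if x < (L : ℝ) then [⌊x⌋₊] else ⌊x⌋₊ :: heights L N (f x)

/-- The logarithm of the random walk at the time `i`: it starts at `m` and its multiplier at the time `j`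
is `1 - cos (π u j) / 2`. -/
noncomputable def walk {N : ℕ} (m : ℕ) (u : Fin N → ℝ) (i : ℕ) : ℝ :=
  Real.log m + ∑ j : Fin N, if (j : ℕ) < i then Real.log (1 - Real.cos (Real.pi * u j) / 2) else 0

/-- The terms of the list `h`, which has at most `N + 1` terms, and the walk at the same times differ at
most by the factor `exp (± η)`. -/
def Near (η : ℝ) {N : ℕ} (m : ℕ) (u : Fin N → ℝ) (h : List ℕ) : Prop :=
  h.length ≤ N + 1 ∧ ∀ i : ℕ, i < h.length → |Real.log (h.getD i 0 : ℕ) - walk m u i| ≤ η

theorem f_eq : f = Pool.Agent.H934R2.Ch.f := rfl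

theorem heights_eq (L : ℕ) : ∀ (N : ℕ) (x : ℝ), heights L N x = Pool.Agent.K9h56.CR.track L N x := by
  intro N
  induction N with
  | zero => intro x; rfl
  | succ N ih =>
    intro x
    rcases lt_or_ge x (L : ℝ) with h | h
    · rw [Pool.Agent.K9h56.CR.track_succ_lt h, heights, if_pos h]
    · rw [Pool.Agent.K9h56.CR.track_succ_ge h, heights, if_neg (not_lt.2 h), ih, f_eq]

/-- **Theorem.** There is `C` such that for all integers `m ≥ L ≥ 1`, all `N` and ALL sets `A` of finite
sequences of natural numbers: the measure of the set of the `x` in `[m, m+1)` whose sequence of heights is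
in `A` is at most the measure of the set of the `u` in `[0, 1] ^ N` whose walk is near a sequence of `A`, with
the allowance `L ^ (-1/2)`, plus `C L ^ (-1/4)`. -/
theorem result : ∃ C : ℝ, ∀ m L : ℕ, 1 ≤ L → L ≤ m → ∀ (N : ℕ) (A : Set (List ℕ)),
    volume {x : ℝ | (m : ℝ) ≤ x ∧ x < m + 1 ∧ heights L N x ∈ A} ≤
      volume {u : Fin N → ℝ | (∀ j, 0 ≤ u j ∧ u j ≤ 1) ∧ ∃ h ∈ A, Near ((L : ℝ) ^ (-(1 / 2) : ℝ)) m u h} +
        ENNReal.ofReal (C * (L : ℝ) ^ (-(1 / 4) : ℝ)) := by
  refine ⟨10000, fun m L hL hLm N A => ?_⟩
  have h1 := Pool.Agent.K9h56.CR.inv_final m L hL hLm N A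
  have h2 := Pool.Agent.K9h56.CR.gg_volume ((L : ℝ) ^ (-(1 / 2) : ℝ)) N A (Real.log m)
  have e1 : {x : ℝ | (m : ℝ) ≤ x ∧ x < m + 1 ∧ heights L N x ∈ A} =
      {x : ℝ | Pool.Agent.K9h56.CR.track L N x ∈ A} ∩ Pool.Agent.W40.Ch.cell m := by
    ext x
    constructor
    · rintro ⟨a, b, c⟩
      exact ⟨by rw [Set.mem_ofPred_eq, ← heights_eq]; exact c, a, b⟩
    · rintro ⟨c, a, b⟩
      exact ⟨a, b, by rw [heights_eq]; exact c⟩
  have e2 : volume {x : ℝ | (m : ℝ) ≤ x ∧ x < m + 1 ∧ heights L N x ∈ A} =
      ENNReal.ofReal (Pool.Agent.W40.Ch.bb {x : ℝ | Pool.Agent.K9h56.CR.track L N x ∈ A} m) := by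
    rw [e1, ← ENNReal.ofReal_toReal (Pool.Agent.W40.Ch.inter_fin' _ _)]
    rfl
  rw [e2]
  refine (ENNReal.ofReal_le_ofReal h1).trans ?_
  rw [ENNReal.ofReal_add (Pool.Agent.K9h56.CR.gg_nonneg _ _ _ _) (by positivity), h2]
  rfl

end Pool.Agent.Results.MP_a247fa_nt.OrbitsFollowRandomWalk
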